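import Pool.Agent.Helper14.TT.StF

/-!
Project TT, module A8W: the functional equation with sign `w` gives `f|W = -w f`.
-/

set_option autoImplicit false

namespace Pool.Agent.Helper36.TT

open Pool.Agent.Helper14.TT Pool.Agent.Helper14.CV
open Pool.Agent.Helper76.TX (RootNum Sg)
open Complex Filter Topology MeasureTheory Set

/-- the function on the positive half line -/
private noncomputable def ph {N : ℕ} (f : CuspForm (G0 N) 2) (t : ℝ) : ℂ := fz f (I * t)

private lemma conv {N : ℕ} [NeZero N] (f : CuspForm (G0 N) 2) (s : ℂ) : MellinConvergent (ph f) s :=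
  ((CuspForm.isStrongFEPair (k := 2) two_pos f).hasMellin s).1

private lemma lam_eq {N : ℕ} [NeZero N] (f : CuspForm (G0 N) 2) (s : ℂ) (hs : 0 < (s + 1 / 2).re) :
    Lam f s = (Real.sqrt N : ℂ) ^ s * ((2 * Real.pi : ℝ) : ℂ) ^ (1 / 2 : ℂ) * mellin (ph f) (s + 1 / 2) := by
  have hN : 0 < (N : ℝ) := by
    have := NeZero.pos N
    exact_mod_cast this
  have hG : Complex.Gamma (s + 1 / 2) ≠ 0 := Complex.Gamma_ne_zero_of_re_pos hs
  have h2 : ((2 * Real.pi : ℝ) : ℂ) ≠ 0 := by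
    exact_mod_cast (by positivity : (2 * Real.pi : ℝ) ≠ 0)
  have h1 : ((Real.sqrt N / (2 * Real.pi) : ℝ) : ℂ) ^ s
      = (Real.sqrt N : ℂ) ^ s / ((2 * Real.pi : ℝ) : ℂ) ^ s := by
    rw [Complex.ofReal_div, Complex.div_cpow_ofReal_nonneg (Real.sqrt_nonneg _) (by positivity)]
  have hL : Lan f s = mellin (ph f) (s + 1 / 2) * (2 / Complex.Gammaℂ (s + 1 / 2)) := by
    unfold Lan ModularForm.L
    rw [CuspForm.Λ_eq_mellin]
    rfl
  unfold Lam
  rw [hL, h1, Complex.Gammaℂ_def]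
  have h3 : (2 * (Real.pi : ℂ)) = ((2 * Real.pi : ℝ) : ℂ) := by push_cast; ring
  rw [h3]
  have h4 : ((2 * Real.pi : ℝ) : ℂ) ^ (-(s + 1 / 2)) = (((2 * Real.pi : ℝ) : ℂ) ^ s * ((2 * Real.pi : ℝ) : ℂ) ^ (1 / 2 : ℂ))⁻¹ := by
    rw [Complex.cpow_neg, Complex.cpow_add _ _ h2]
  rw [h4]
  have h5 : ((2 * Real.pi : ℝ) : ℂ) ^ s ≠ 0 := by
    rw [Complex.cpow_ne_zero_iff]
    exact Or.inl h2
  have h6 : ((2 * Real.pi : ℝ) : ℂ) ^ (1 / 2 : ℂ) ≠ 0 := by
    rw [Complex.cpow_ne_zero_iff]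
    exact Or.inl h2
  generalize s + 1 / 2 = u at hG ⊢
  field_simp

/-- the transformed function -/
private noncomputable def ps {N : ℕ} (f : CuspForm (G0 N) 2) (t : ℝ) : ℂ :=
  (N : ℂ)⁻¹ • ((t : ℂ) ^ (-2 : ℂ) • ph f ((N : ℝ) * t)⁻¹)

private lemma mellin_ps {N : ℕ} [NeZero N] (f : CuspForm (G0 N) 2) (s : ℂ) :
    mellin (ps f) s = (N : ℂ) ^ (1 - s) * mellin (ph f) (2 - s) := by
  have hN : 0 < (N : ℝ) := by
    have := NeZero.pos N
    exact_mod_cast this
  have hN0 : (N : ℂ) ≠ 0 := by exact_mod_cast hN.ne'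
  have e1 : mellin (ps f) s = (N : ℂ)⁻¹ • mellin (fun t : ℝ => (t : ℂ) ^ (-2 : ℂ) • ph f ((N : ℝ) * t)⁻¹) s :=
    mellin_const_smul _ _ _
  have e2 : mellin (fun t : ℝ => (t : ℂ) ^ (-2 : ℂ) • ph f ((N : ℝ) * t)⁻¹) s
      = mellin (fun t : ℝ => ph f ((N : ℝ) * t)⁻¹) (s + -2) :=
    mellin_cpow_smul (fun t : ℝ => ph f ((N : ℝ) * t)⁻¹) s (-2)
  have e3 : mellin (fun t : ℝ => ph f ((N : ℝ) * t)⁻¹) (s + -2)
      = ((N : ℝ) : ℂ) ^ (-(s + -2)) • mellin (fun t : ℝ => ph f t⁻¹) (s + -2) :=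
    mellin_comp_mul_left (fun t : ℝ => ph f t⁻¹) (s + -2) hN
  have e4 : mellin (fun t : ℝ => ph f t⁻¹) (s + -2) = mellin (ph f) (-(s + -2)) := mellin_comp_inv _ _
  rw [e1, e2, e3, e4, smul_eq_mul, smul_eq_mul, ← mul_assoc]
  have e5 : -(s + -2) = 2 - s := by ring
  rw [e5]
  congr 1
  have e6 : (2 - s : ℂ) = (1 - s) + 1 := by ring
  rw [e6, Complex.ofReal_natCast, Complex.cpow_add _ _ hN0, Complex.cpow_one]
  field_simp

private lemma conv_ps {N : ℕ} [NeZero N] (f : CuspForm (G0 N) 2) (s : ℂ) : MellinConvergent (ps f) s := by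
  have hN : 0 < (N : ℝ) := by
    have := NeZero.pos N
    exact_mod_cast this
  refine MellinConvergent.const_smul ?_ _
  refine (MellinConvergent.cpow_smul (f := fun t : ℝ => ph f ((N : ℝ) * t)⁻¹)).2 ?_
  refine (MellinConvergent.comp_mul_left (f := fun t : ℝ => ph f t⁻¹) hN).2 ?_
  have h := (MellinConvergent.comp_rpow (f := ph f) (s := s + -2) (a := -1) (by norm_num)).2 (conv f _)
  simpa [Real.rpow_neg_one] using h

/-- the transformed function with sign -/
private noncomputable def pw {N : ℕ} (w : ℤ) (f : CuspForm (G0 N) 2) (t : ℝ) : ℂ :=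
  (w : ℂ) • ps f t

private lemma mellin_pw {N : ℕ} [NeZero N] (w : ℤ) (f : CuspForm (G0 N) 2) (s : ℂ) :
    mellin (pw w f) s = (w : ℂ) * ((N : ℂ) ^ (1 - s) * mellin (ph f) (2 - s)) := by
  have e1 : mellin (pw w f) s = (w : ℂ) • mellin (ps f) s := mellin_const_smul _ _ _
  rw [e1, mellin_ps, smul_eq_mul]

private lemma conv_pw {N : ℕ} [NeZero N] (w : ℤ) (f : CuspForm (G0 N) 2) (s : ℂ) :
    MellinConvergent (pw w f) s := (conv_ps f s).const_smul _

private lemma holo {N : ℕ} (f : CuspForm (G0 N) 2) : DifferentiableOn ℂ (fz f) {z | 0 < z.im} :=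
  UpperHalfPlane.mdifferentiable_iff.1 (CuspFormClass.holo f)

private lemma ph_cont {N : ℕ} (f : CuspForm (G0 N) 2) {t : ℝ} (ht : 0 < t) : ContinuousAt (ph f) t := by
  have hz : (0 : ℝ) < (I * (t : ℂ)).im := by simpa using ht
  have h1 : ContinuousAt (fz f) (I * (t : ℂ)) :=
    ((holo f).differentiableAt ((isOpen_lt continuous_const Complex.continuous_im).mem_nhds hz)).continuousAt
  exact ContinuousAt.comp (f := fun t : ℝ => I * (t : ℂ)) h1 (by fun_prop)

theorem hA8W : A8W := by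
  intro w N hNZ f hw hf z hz
  have hww : (w : ℂ) * w = 1 := by
    rcases hw with h | h <;> rw [h] <;> norm_num
  have := hNZ
  have hN : 0 < (N : ℝ) := by
    have := NeZero.pos N
    exact_mod_cast this
  have hN0 : (N : ℂ) ≠ 0 := by exact_mod_cast hN.ne'
  have hsq : (Real.sqrt N : ℂ) ≠ 0 := by
    exact_mod_cast (Real.sqrt_pos.2 hN).ne'
  -- equality of the Mellin transforms on the line
  have hM : ∀ y : ℝ, mellin (pw w f) ((1 : ℝ) + y * I) = mellin (ph f) ((1 : ℝ) + y * I) := by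
    intro y
    have hr := hf (1 / 2 + y * I) (by norm_num) (by norm_num)
    rw [lam_eq f _ (by simp), lam_eq f _ (by simp)] at hr
    have c1 : (1 / 2 + (y : ℂ) * I + 1 / 2 : ℂ) = ((1 : ℝ) : ℂ) + y * I := by push_cast; ring
    have c2 : (1 - (1 / 2 + (y : ℂ) * I) + 1 / 2 : ℂ) = 2 - (((1 : ℝ) : ℂ) + y * I) := by push_cast; ring
    have c3 : (1 - (1 / 2 + (y : ℂ) * I) : ℂ) = (1 / 2 + (y : ℂ) * I) + 2 * (-(y * I)) := by ring
    rw [c1, c2, c3, Complex.cpow_add (1 / 2 + (y : ℂ) * I) (2 * (-(y * I))) hsq] at hr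
    have h2 : ((2 * Real.pi : ℝ) : ℂ) ^ (1 / 2 : ℂ) ≠ 0 := by
      rw [Complex.cpow_ne_zero_iff]
      left
      exact_mod_cast (by positivity : (2 * Real.pi : ℝ) ≠ 0)
    have h3 : (Real.sqrt N : ℂ) ^ (1 / 2 + (y : ℂ) * I) ≠ 0 := by
      rw [Complex.cpow_ne_zero_iff]
      exact Or.inl hsq
    have h4 : mellin (ph f) (((1 : ℝ) : ℂ) + y * I)
        = (w : ℂ) * ((Real.sqrt N : ℂ) ^ (2 * (-(y * I))) *
          mellin (ph f) (2 - (((1 : ℝ) : ℂ) + y * I))) := by
      have h5 : ((Real.sqrt N : ℂ) ^ (1 / 2 + (y : ℂ) * I) * ((2 * Real.pi : ℝ) : ℂ) ^ (1 / 2 : ℂ)) *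
          (mellin (ph f) (((1 : ℝ) : ℂ) + y * I)) =
          ((Real.sqrt N : ℂ) ^ (1 / 2 + (y : ℂ) * I) * ((2 * Real.pi : ℝ) : ℂ) ^ (1 / 2 : ℂ)) *
          ((w : ℂ) * ((Real.sqrt N : ℂ) ^ (2 * (-(y * I))) *
            mellin (ph f) (2 - (((1 : ℝ) : ℂ) + y * I)))) := by
        rw [hr]
        ring
      exact mul_left_cancel₀ (mul_ne_zero h3 h2) h5
    rw [h4, mellin_pw]
    congr 2
    have h6 : (Real.sqrt N : ℂ) ^ (2 * (-((y : ℂ) * I))) = (N : ℂ) ^ (-((y : ℂ) * I)) := by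
      rw [two_mul, Complex.cpow_add _ _ hsq,
        ← Complex.mul_cpow_ofReal_nonneg (Real.sqrt_nonneg _) (Real.sqrt_nonneg _), ← Complex.ofReal_mul,
        Real.mul_self_sqrt hN.le, Complex.ofReal_natCast]
    rw [h6]
    congr 1
    push_cast
    ring
  -- inversion
  have hE : ∀ t : ℝ, 0 < t → pw w f t = ph f t := by
    intro t ht
    have hps0 : ContinuousAt (ps f) t := by
      have k1 : ContinuousAt (fun t : ℝ => (t : ℂ) ^ (-2 : ℂ)) t :=
        Complex.continuousAt_ofReal_cpow_const t (-2) (Or.inr ht.ne')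
      have k2 : ContinuousAt (fun t : ℝ => ((N : ℝ) * t)⁻¹) t :=
        (continuousAt_const.mul continuousAt_id).inv₀ (mul_pos hN ht).ne'
      have k3 : ContinuousAt (fun t : ℝ => ph f ((N : ℝ) * t)⁻¹) t :=
        ContinuousAt.comp (f := fun t : ℝ => ((N : ℝ) * t)⁻¹) (g := ph f)
          (ph_cont f (inv_pos.2 (mul_pos hN ht))) k2
      exact (ContinuousAt.smul k1 k3).const_smul ((N : ℂ)⁻¹)
    have hps : ContinuousAt (pw w f) t := hps0.const_smul (w : ℂ)
    have hD : MellinConvergent (fun t => pw w f t - ph f t) ((1 : ℝ) : ℂ) :=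
      (hasMellin_sub (conv_pw w f _) (conv f _)).1
    have hD0 : ∀ y : ℝ, mellin (fun t => pw w f t - ph f t) ((1 : ℝ) + y * I) = 0 := by
      intro y
      rw [(hasMellin_sub (conv_pw w f _) (conv f _)).2, hM y, sub_self]
    have hV : VerticalIntegrable (mellin fun t => pw w f t - ph f t) 1 := by
      unfold VerticalIntegrable
      have : (fun y : ℝ => mellin (fun t => pw w f t - ph f t) ((1 : ℝ) + y * I)) = fun _ => 0 := by
        funext y
        exact hD0 y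
      rw [this]
      exact integrable_zero _ _ _
    have hI := mellinInv_mellin_eq 1 (fun t => pw w f t - ph f t) ht hD hV (hps.sub (ph_cont f ht))
    have hI0 : mellinInv 1 (mellin fun t => pw w f t - ph f t) t = 0 := by
      unfold mellinInv
      have : (fun y : ℝ => (t : ℂ) ^ (-(((1 : ℝ) : ℂ) + y * I)) • mellin (fun t => pw w f t - ph f t) ((1 : ℝ) + y * I)) = fun _ => 0 := by
        funext y
        rw [hD0 y, smul_zero]
      rw [this]
      simp
    rw [hI0] at hI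
    exact (sub_eq_zero.1 hI.symm)
  -- on the imaginary axis
  have hA : ∀ t : ℝ, 0 < t → fz f (-1 / (N * (I * t))) +
      (w : ℂ) * (N * (I * t) ^ 2 * fz f (I * t)) = 0 := by
    intro t ht
    have htc : (t : ℂ) ≠ 0 := by exact_mod_cast ht.ne'
    have h1 := hE t ht
    unfold pw ps ph at h1
    have h2 : (t : ℂ) ^ (-2 : ℂ) = ((t : ℂ) ^ 2)⁻¹ := by
      rw [Complex.cpow_neg]
      congr 1
      exact_mod_cast Complex.cpow_natCast (t : ℂ) 2
    rw [h2, smul_eq_mul, smul_eq_mul, smul_eq_mul] at h1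
    have h3 : (-1 / (N * (I * t)) : ℂ) = I * (((N : ℝ) * t)⁻¹ : ℝ) := by
      push_cast
      field_simp
      rw [Complex.I_sq]
    rw [h3, ← h1, mul_pow, Complex.I_sq]
    have h4 : ∀ X : ℂ, X + (w : ℂ) * ((N : ℂ) * (-1 * (t : ℂ) ^ 2) *
        ((w : ℂ) * ((N : ℂ)⁻¹ * (((t : ℂ) ^ 2)⁻¹ * X)))) = 0 := by
      intro X
      have h5 : (N : ℂ) * (-1 * (t : ℂ) ^ 2) * ((N : ℂ)⁻¹ * ((t : ℂ) ^ 2)⁻¹) = -1 := by
        field_simp
      linear_combination X * h5 * (w : ℂ) * w - X * hww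
    exact h4 _
  -- continuation
  set U : Set ℂ := {z | 0 < z.im} with hU
  have hUo : IsOpen U := isOpen_lt continuous_const Complex.continuous_im
  have hz0 : ∀ z ∈ U, (N : ℂ) * z ≠ 0 := by
    intro z hz h
    rcases mul_eq_zero.1 h with h | h
    · exact hN0 h
    · rw [h] at hz
      simp [hU] at hz
  have hmap : ∀ z ∈ U, -1 / ((N : ℂ) * z) ∈ U := by
    intro z hz
    have hz' : 0 < z.im := hz
    have h1 : z ≠ 0 := by
      intro h
      rw [h] at hz'
      simp at hz'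
    have h2 : (-1 / ((N : ℂ) * z)).im = z.im / ((N : ℝ) * Complex.normSq z) := by
      have h3 : -1 / ((N : ℂ) * z) = ((-(N : ℝ)⁻¹ : ℝ) : ℂ) * z⁻¹ := by
        push_cast
        field_simp
      rw [h3, Complex.im_ofReal_mul, Complex.inv_im]
      field_simp
    show 0 < (-1 / ((N : ℂ) * z)).im
    rw [h2]
    exact div_pos hz' (mul_pos hN (Complex.normSq_pos.2 h1))
  have hdiff : DifferentiableOn ℂ (fun z : ℂ => fz f (-1 / (N * z)) +
      (w : ℂ) * (N * z ^ 2 * fz f z)) U := by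
    refine DifferentiableOn.add ?_ ?_
    · refine DifferentiableOn.comp (g := fz f) (f := fun v : ℂ => -1 / ((N : ℂ) * v)) (t := U) (holo f) ?_ hmap
      intro v hv
      exact ((differentiableAt_const _).div ((differentiableAt_const _).mul differentiableAt_id)
        (hz0 v hv)).differentiableWithinAt
    · exact (DifferentiableOn.mul (by fun_prop) (holo f)).const_mul _
  have hconv : Convex ℝ U := convex_halfSpace_im_gt 0
  have hIU : I ∈ U := by simp [hU]
  have hfreq : ∃ᶠ v in 𝓝[≠] (I : ℂ), fz f (-1 / (N * v)) +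
      (w : ℂ) * (N * v ^ 2 * fz f v) = 0 := by
    have ht : Tendsto (fun t : ℝ => I * (t : ℂ)) (𝓝[≠] 1) (𝓝[≠] I) := by
      refine tendsto_nhdsWithin_iff.2 ⟨?_, ?_⟩
      · have : Tendsto (fun t : ℝ => I * (t : ℂ)) (𝓝 1) (𝓝 (I * ((1 : ℝ) : ℂ))) :=
          (Continuous.tendsto (by fun_prop) 1)
        simp only [Complex.ofReal_one, mul_one] at this
        exact this.mono_left nhdsWithin_le_nhds
      · filter_upwards [self_mem_nhdsWithin] with t ht h
        apply ht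
        have h' : I * (t : ℂ) = I * ((1 : ℝ) : ℂ) := by
          rw [Complex.ofReal_one, mul_one]
          exact h
        exact_mod_cast (mul_left_cancel₀ Complex.I_ne_zero h')
    refine ht.frequently (Eventually.frequently ?_)
    have hpos : ∀ᶠ t : ℝ in 𝓝 (1 : ℝ), 0 < t := eventually_gt_nhds one_pos
    filter_upwards [hpos.filter_mono nhdsWithin_le_nhds] with t ht
    exact hA t ht
  have hzero := AnalyticOnNhd.eqOn_zero_of_preconnected_of_frequently_eq_zero
    (hdiff.analyticOnNhd hUo) hconv.isPreconnected hIU hfreq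
  have := hzero hz
  simp only [Pi.zero_apply] at this
  exact eq_neg_of_add_eq_zero_left this

end Pool.Agent.Helper36.TT
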