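import Pool.Agent.Helper14.TT.StU

/-!
# Project TT, module E1S: even exponent, injection into `antiES k w (-ε)`
-/

set_option autoImplicit false

namespace Pool.Agent.Helper36.TT

open Pool.Agent.Helper14.TT Pool.Agent.Helper14.CV
open Pool.Agent.Helper76.TX (BalES antiES Sg)

private lemma z1 (j : ℕ) : (2 : ZMod (2 ^ (j + 1))) ^ (j + 1) = 0 := by
  have h := ZMod.natCast_self (2 ^ (j + 1))
  push_cast at h
  exact h

private lemma z2 (j : ℕ) : (2 : ZMod (2 ^ (j + 1))) ^ (j + 2) = 0 := by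
  rw [pow_succ (2 : ZMod (2 ^ (j + 1))) (j + 1), z1, zero_mul]

private lemma hodd (j : ℕ) (n : ℤ) (hn : Odd n) :
    (2 : ZMod (2 ^ (j + 1))) ^ j * (n : ZMod (2 ^ (j + 1))) = 2 ^ j := by
  obtain ⟨e, rfl⟩ := hn
  push_cast
  linear_combination (e : ZMod (2 ^ (j + 1))) * z1 j

private lemma odd_ad {a b c d : ℤ} (h : a * d - 2 ^ (1 + 1) * b * c = 1) : Odd a ∧ Odd d := by
  have h1 : Odd (a * d) := ⟨2 * b * c, by linear_combination h⟩
  exact Int.odd_mul.1 h1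

/-- every matrix has coordinates -/
private lemma exPl (j : ℕ) {a b c d : ℤ} (h : a * d - 2 ^ (1 + 1) * b * c = 1) :
    ∃ x y : ZMod (2 ^ (j + 1)), Pl 1 a b c d x y := by
  have ha : IsUnit (a : ZMod (2 ^ (j + 1))) := by
    rw [ZMod.coe_int_isUnit_iff_isCoprime]
    push_cast
    exact IsCoprime.pow_left ⟨-2 * b * c, d, by linear_combination h⟩
  have hd : IsUnit (d : ZMod (2 ^ (j + 1))) := by
    rw [ZMod.coe_int_isUnit_iff_isCoprime]
    push_cast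
    exact IsCoprime.pow_left ⟨-2 * b * c, a, by linear_combination h⟩
  refine ⟨b * (a : ZMod (2 ^ (j + 1)))⁻¹, c * (d : ZMod (2 ^ (j + 1)))⁻¹, h, ?_, ?_⟩
  · rw [mul_assoc, ZMod.inv_mul_of_unit _ ha, mul_one]
  · rw [mul_assoc, ZMod.inv_mul_of_unit _ hd, mul_one]

private lemma exM (hPlA : StPlA) (j : ℕ) (x y : ZMod (2 ^ (j + 1))) :
    ∃ a b c d : ℤ, Pl 1 a b c d x y :=
  ⟨_, _, _, _, hPlA 1 (j + 1) (j + 1) x y⟩

private lemma nz {a b c d : ℤ} (h : a * d - 2 ^ (1 + 1) * b * c = 1) {u1 u2 : ℤ}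
    (hu : u1 ≠ 0 ∨ u2 ≠ 0) : a * u1 + 2 ^ 1 * b * u2 ≠ 0 ∨ 2 * c * u1 + d * u2 ≠ 0 :=
  ne_zero_of_det (a := a) (b := 2 ^ 1 * b) (c := 2 * c) (d := d)
    (by intro h0; have : (1 : ℤ) = 0 := by linear_combination h0 - h
        exact absurd this one_ne_zero) hu

/-- the matrix `(1 2^(j+1); 0 1) g` -/
private lemma plT (j : ℕ) {a b c d : ℤ} {x y : ZMod (2 ^ (j + 1))} (h : Pl 1 a b c d x y) :
    Pl 1 (a + 2 ^ (j + 2) * c) (b + 2 ^ j * d) c d (x + 2 ^ j) y := by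
  obtain ⟨h1, h2, h3⟩ := h
  obtain ⟨oa, od⟩ := odd_ad h1
  refine ⟨by linear_combination h1, ?_, h3⟩
  push_cast
  linear_combination h2 + hodd j d od - hodd j a oa - (x + 2 ^ j) * (c : ZMod (2 ^ (j + 1))) * z2 j

/-- the matrix `(1 0; 2^(j+1) 1) g` -/
private lemma plL (j : ℕ) {a b c d : ℤ} {x y : ZMod (2 ^ (j + 1))} (h : Pl 1 a b c d x y) :
    Pl 1 a b (c + 2 ^ j * a) (d + 2 ^ (j + 2) * b) x (y + 2 ^ j) := by
  obtain ⟨h1, h2, h3⟩ := h
  obtain ⟨oa, od⟩ := odd_ad h1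
  refine ⟨by linear_combination h1, h2, ?_⟩
  push_cast
  linear_combination h3 + hodd j a oa - hodd j d od - (y + 2 ^ j) * (b : ZMod (2 ^ (j + 1))) * z2 j

/-- the matrix `g A^m`, `m = 2^j` -/
private lemma plA (j : ℕ) {a b c d : ℤ} {x y : ZMod (2 ^ (j + 1))} (h : Pl 1 a b c d x y) :
    Pl 1 a (b + 2 ^ j * a) c (d + 4 * 2 ^ j * c) (x + 2 ^ j) y := by
  obtain ⟨h1, h2, h3⟩ := h
  refine ⟨by linear_combination h1, ?_, ?_⟩
  · push_cast
    linear_combination h2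
  · push_cast
    linear_combination h3 - y * (c : ZMod (2 ^ (j + 1))) * z2 j

/-- the matrix `g B^m`, `m = 2^j` -/
private lemma plB (j : ℕ) {a b c d : ℤ} {x y : ZMod (2 ^ (j + 1))} (h : Pl 1 a b c d x y) :
    Pl 1 (a + 4 * 2 ^ j * b) b (c + 2 ^ j * d) d x (y + 2 ^ j) := by
  obtain ⟨h1, h2, h3⟩ := h
  refine ⟨by linear_combination h1, ?_, ?_⟩
  · push_cast
    linear_combination h2 - x * (b : ZMod (2 ^ (j + 1))) * z2 j
  · push_cast
    linear_combination h3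

section

variable {j : ℕ} {w ε : ℤ} {G : ℤ → ℤ → ℂ}

/-- the value of the symbol by any matrix with the given coordinates -/
private lemma ed (hEdg : StEdg) (hS : Sym (j + 2) (j + 2) G) {u1 u2 v1 v2 : ℤ}
    (hu : u1 ≠ 0 ∨ u2 ≠ 0) (hv : v1 ≠ 0 ∨ v2 ≠ 0) {a b c d : ℤ} {x y : ZMod (2 ^ (j + 1))}
    (h : Pl 1 a b c d x y) :
    edgeF 1 u1 u2 v1 v2 G x y = G (a * u1 + 2 ^ 1 * b * u2) (2 * c * u1 + d * u2) -
      G (a * v1 + 2 ^ 1 * b * v2) (2 * c * v1 + d * v2) :=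
  hEdg ℂ _ 1 (j + 1) (j + 1) G hS u1 u2 v1 v2 hu hv x y a b c d h

private lemma shx (hPlA : StPlA) (hEdg : StEdg) (hB : BalES (j + 2) w ε G) {u1 u2 v1 v2 : ℤ}
    (hu : u1 ≠ 0 ∨ u2 ≠ 0) (hv : v1 ≠ 0 ∨ v2 ≠ 0) (x y : ZMod (2 ^ (j + 1))) :
    edgeF 1 u1 u2 v1 v2 G (x + 2 ^ j) y = -edgeF 1 u1 u2 v1 v2 G x y := by
  obtain ⟨hS, hT, -, -, -⟩ := hB
  obtain ⟨a, b, c, d, h⟩ := exM hPlA j x y
  have h' := plT j h
  rw [ed hEdg hS hu hv h, ed hEdg hS hu hv h']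
  have hT' : EqC (act 1 (2 ^ (j + 1)) 0 1 G) (-G) := hT
  have e := hT'.diff (nz h.1 hu) (nz h.1 hv)
  simp only [act, Pi.neg_apply] at e
  have e1 : (a + 2 ^ (j + 2) * c) * u1 + 2 ^ 1 * (b + 2 ^ j * d) * u2 =
      1 * (a * u1 + 2 ^ 1 * b * u2) + 2 ^ (j + 1) * (2 * c * u1 + d * u2) := by ring
  have e2 : (a + 2 ^ (j + 2) * c) * v1 + 2 ^ 1 * (b + 2 ^ j * d) * v2 =
      1 * (a * v1 + 2 ^ 1 * b * v2) + 2 ^ (j + 1) * (2 * c * v1 + d * v2) := by ring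
  have e3 : ∀ s t : ℤ, 2 * c * s + d * t = 0 * (a * s + 2 ^ 1 * b * t) + 1 * (2 * c * s + d * t) := by
    intro s t; ring
  rw [e1, e2]
  rw [← e3 u1 u2, ← e3 v1 v2] at e
  rw [e]
  ring

private lemma shy (hPlA : StPlA) (hEdg : StEdg) (hB : BalES (j + 2) w ε G) {u1 u2 v1 v2 : ℤ}
    (hu : u1 ≠ 0 ∨ u2 ≠ 0) (hv : v1 ≠ 0 ∨ v2 ≠ 0) (x y : ZMod (2 ^ (j + 1))) :
    edgeF 1 u1 u2 v1 v2 G x (y + 2 ^ j) = -edgeF 1 u1 u2 v1 v2 G x y := by
  obtain ⟨hS, -, hT, -, -⟩ := hB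
  obtain ⟨a, b, c, d, h⟩ := exM hPlA j x y
  have h' := plL j h
  rw [ed hEdg hS hu hv h, ed hEdg hS hu hv h']
  have hT' : EqC (act 1 0 (2 ^ (j + 1)) 1 G) (-G) := hT
  have e := hT'.diff (nz h.1 hu) (nz h.1 hv)
  simp only [act, Pi.neg_apply] at e
  have e1 : ∀ s t : ℤ, 2 * (c + 2 ^ j * a) * s + (d + 2 ^ (j + 2) * b) * t =
      2 ^ (j + 1) * (a * s + 2 ^ 1 * b * t) + 1 * (2 * c * s + d * t) := by intro s t; ring
  have e3 : ∀ s t : ℤ, a * s + 2 ^ 1 * b * t = 1 * (a * s + 2 ^ 1 * b * t) + 0 * (2 * c * s + d * t) := by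
    intro s t; ring
  rw [e1 u1 u2, e1 v1 v2]
  rw [← e3 u1 u2, ← e3 v1 v2] at e
  rw [e]
  ring

private lemma homm {G : ℤ → ℤ → ℂ} (h : Homog G) {p q : ℤ} (hpq : p ≠ 0 ∨ q ≠ 0) :
    G (-p) (-q) = G p q := by
  have := h (-1) p q (by norm_num) hpq
  rwa [neg_one_mul, neg_one_mul] at this

private lemma u11 : (1 : ℤ) ≠ 0 ∨ (1 : ℤ) ≠ 0 := Or.inl one_ne_zero
private lemma um1 : (-1 : ℤ) ≠ 0 ∨ (1 : ℤ) ≠ 0 := Or.inr one_ne_zero
private lemma u10 : (1 : ℤ) ≠ 0 ∨ (0 : ℤ) ≠ 0 := Or.inl one_ne_zero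
private lemma u01 : (0 : ℤ) ≠ 0 ∨ (1 : ℤ) ≠ 0 := Or.inr one_ne_zero

private lemma sw (hPlA : StPlA) (hEdg : StEdg) (hB : BalES (j + 2) w ε G)
    (x y : ZMod (2 ^ (j + 1))) :
    edgeF 1 1 1 (-1) 1 G (-y) (-x) = (w : ℂ) * edgeF 1 1 1 (-1) 1 G x y := by
  obtain ⟨hS, -, -, hW, -⟩ := hB
  obtain ⟨a, b, c, d, h⟩ := exM hPlA j x y
  have h' : Pl 1 d (-c) (-b) a (-y) (-x) := by
    obtain ⟨h1, h2, h3⟩ := h
    refine ⟨by linear_combination h1, ?_, ?_⟩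
    · push_cast; linear_combination -h3
    · push_cast; linear_combination -h2
  rw [ed hEdg hS u11 um1 h, ed hEdg hS u11 um1 h']
  have n1 := nz h.1 u11
  have n2 := nz h.1 um1
  have e := hW.diff n1 n2
  have hsm : ∀ p q : ℤ, (w • G) p q = (w : ℂ) * G p q := fun p q => zsmul_eq_mul _ _
  simp only [act, Pi.neg_apply, hsm] at e
  have m1 := homm hS.1 (p := 0 * (a * 1 + 2 ^ 1 * b * 1) + -1 * (2 * c * 1 + d * 1))
    (q := 1 * (a * 1 + 2 ^ 1 * b * 1) + 0 * (2 * c * 1 + d * 1)) (by omega)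
  have m2 := homm hS.1 (p := 0 * (a * -1 + 2 ^ 1 * b * 1) + -1 * (2 * c * -1 + d * 1))
    (q := 1 * (a * -1 + 2 ^ 1 * b * 1) + 0 * (2 * c * -1 + d * 1)) (by omega)
  have g1 : G (d * 1 + 2 ^ 1 * -c * 1) (2 * -b * 1 + a * 1) =
      G (0 * (a * -1 + 2 ^ 1 * b * 1) + -1 * (2 * c * -1 + d * 1))
        (1 * (a * -1 + 2 ^ 1 * b * 1) + 0 * (2 * c * -1 + d * 1)) := by
    rw [← m2]
    congr 1 <;> ring
  have g2 : G (d * -1 + 2 ^ 1 * -c * 1) (2 * -b * -1 + a * 1) =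
      G (0 * (a * 1 + 2 ^ 1 * b * 1) + -1 * (2 * c * 1 + d * 1))
        (1 * (a * 1 + 2 ^ 1 * b * 1) + 0 * (2 * c * 1 + d * 1)) := by
    congr 1 <;> ring
  rw [g1, g2]
  linear_combination -e

private lemma ne (hPlA : StPlA) (hEdg : StEdg) (hB : BalES (j + 2) w ε G)
    (x y : ZMod (2 ^ (j + 1))) :
    edgeF 1 1 1 (-1) 1 G (-x) (-y) = ((-ε : ℤ) : ℂ) * edgeF 1 1 1 (-1) 1 G x y := by
  obtain ⟨hS, -, -, -, hW⟩ := hB
  obtain ⟨a, b, c, d, h⟩ := exM hPlA j x y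
  have h' : Pl 1 a (-b) (-c) d (-x) (-y) := by
    obtain ⟨h1, h2, h3⟩ := h
    refine ⟨by linear_combination h1, ?_, ?_⟩
    · push_cast; linear_combination -h2
    · push_cast; linear_combination -h3
  rw [ed hEdg hS u11 um1 h, ed hEdg hS u11 um1 h']
  have n1 := nz h.1 u11
  have n2 := nz h.1 um1
  have e := hW.diff n1 n2
  have hsm : ∀ p q : ℤ, (ε • G) p q = (ε : ℂ) * G p q := fun p q => zsmul_eq_mul _ _
  simp only [act, hsm] at e
  have g1 : G (a * 1 + 2 ^ 1 * -b * 1) (2 * -c * 1 + d * 1) =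
      G (-1 * (a * -1 + 2 ^ 1 * b * 1) + 0 * (2 * c * -1 + d * 1))
        (0 * (a * -1 + 2 ^ 1 * b * 1) + 1 * (2 * c * -1 + d * 1)) := by
    congr 1 <;> ring
  have g2 : G (a * -1 + 2 ^ 1 * -b * 1) (2 * -c * -1 + d * 1) =
      G (-1 * (a * 1 + 2 ^ 1 * b * 1) + 0 * (2 * c * 1 + d * 1))
        (0 * (a * 1 + 2 ^ 1 * b * 1) + 1 * (2 * c * 1 + d * 1)) := by
    congr 1 <;> ring
  have hc : ((-ε : ℤ) : ℂ) = -(ε : ℂ) := Int.cast_neg ε
  rw [g1, g2, hc]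
  linear_combination -e

/-- first part -/
private lemma memA (hPlA : StPlA) (hEdg : StEdg) (hB : BalES (j + 2) w ε G) :
    (fun (x : ZMod (2 ^ (j + 1))) (y : ZMod (2 ^ (j + 1))) => edgeF 1 1 1 (-1) 1 G x y) ∈
      antiES (j + 2) w (-ε) := by
  intro x y
  exact ⟨shx hPlA hEdg hB u11 um1 x y, shy hPlA hEdg hB u11 um1 x y, sw hPlA hEdg hB x y,
    ne hPlA hEdg hB x y⟩

/-- `Ξ = 0` for all matrices -/
private lemma h0 (hEdg : StEdg) (hB : BalES (j + 2) w ε G)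
    (hz : ∀ (x : ZMod (2 ^ (j + 1))) (y : ZMod (2 ^ (j + 1))), edgeF 1 1 1 (-1) 1 G x y = 0)
    {a b c d : ℤ} (h : a * d - 2 ^ (1 + 1) * b * c = 1) :
    G (a + 2 * b) (2 * c + d) = G (-a + 2 * b) (-2 * c + d) := by
  obtain ⟨x, y, hp⟩ := exPl j h
  have e := ed hEdg hB.1 u11 um1 hp
  rw [hz x y] at e
  have e1 : G (a * 1 + 2 ^ 1 * b * 1) (2 * c * 1 + d * 1) = G (a + 2 * b) (2 * c + d) := by
    congr 1 <;> ring
  have e2 : G (a * -1 + 2 ^ 1 * b * 1) (2 * c * -1 + d * 1) = G (-a + 2 * b) (-2 * c + d) := by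
    congr 1 <;> ring
  rw [e1, e2] at e
  exact (sub_eq_zero.1 e.symm)

private lemma iterA (hEdg : StEdg) (hB : BalES (j + 2) w ε G)
    (hz : ∀ (x : ZMod (2 ^ (j + 1))) (y : ZMod (2 ^ (j + 1))), edgeF 1 1 1 (-1) 1 G x y = 0)
    {a b c d : ℤ} (h : a * d - 2 ^ (1 + 1) * b * c = 1) (m : ℕ) :
    G (a + 2 * (b + m * a)) (2 * c + (d + 4 * m * c)) = G (a + 2 * b) (2 * c + d) := by
  induction m with
  | zero => congr 1 <;> push_cast <;> ring
  | succ m ih =>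
    rw [← ih]
    have h' : a * (d + 4 * ((m + 1 : ℕ) : ℤ) * c) - 2 ^ (1 + 1) * (b + ((m + 1 : ℕ) : ℤ) * a) * c = 1 := by
      linear_combination h
    rw [h0 hEdg hB hz h']
    congr 1 <;> push_cast <;> ring

private lemma iterB (hEdg : StEdg) (hB : BalES (j + 2) w ε G)
    (hz : ∀ (x : ZMod (2 ^ (j + 1))) (y : ZMod (2 ^ (j + 1))), edgeF 1 1 1 (-1) 1 G x y = 0)
    {a b c d : ℤ} (h : a * d - 2 ^ (1 + 1) * b * c = 1) (m : ℕ) :
    G ((a + 4 * m * b) + 2 * b) (2 * (c + m * d) + d) = G (a + 2 * b) (2 * c + d) := by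
  induction m with
  | zero => congr 1 <;> push_cast <;> ring
  | succ m ih =>
    rw [← ih]
    have h' : (a + 4 * ((m + 1 : ℕ) : ℤ) * b) * d - 2 ^ (1 + 1) * b * (c + ((m + 1 : ℕ) : ℤ) * d) = 1 := by
      linear_combination h
    rw [h0 hEdg hB hz h']
    have h'' : (a + 4 * (m : ℤ) * b) * d - 2 ^ (1 + 1) * b * (c + (m : ℤ) * d) = 1 := by
      linear_combination h
    have n := nz h'' u11
    have e := homm hB.1.1 n
    have e1 : G ((a + 4 * (m : ℤ) * b) + 2 * b) (2 * (c + (m : ℤ) * d) + d) =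
        G ((a + 4 * (m : ℤ) * b) * 1 + 2 ^ 1 * b * 1) (2 * (c + (m : ℤ) * d) * 1 + d * 1) := by
      congr 1 <;> ring
    rw [e1, ← e]
    congr 1 <;> push_cast <;> ring

/-- `G(g ∞) = G(g 1)` -/
private lemma h1 (hPlA : StPlA) (hEdg : StEdg) (hB : BalES (j + 2) w ε G)
    (hz : ∀ (x : ZMod (2 ^ (j + 1))) (y : ZMod (2 ^ (j + 1))), edgeF 1 1 1 (-1) 1 G x y = 0)
    {a b c d : ℤ} (h : a * d - 2 ^ (1 + 1) * b * c = 1) :
    G a (2 * c) = G (a + 2 * b) (2 * c + d) := by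
  obtain ⟨x, y, hp⟩ := exPl j h
  have e := ed hEdg hB.1 u10 u11 hp
  have e' := ed hEdg hB.1 u10 u11 (plA j hp)
  rw [shx hPlA hEdg hB u10 u11 x y] at e'
  have i := iterA hEdg hB hz h (2 ^ j)
  have e1 : G (a * 1 + 2 ^ 1 * b * 1) (2 * c * 1 + d * 1) = G (a + 2 * b) (2 * c + d) := by
    congr 1 <;> ring
  have e2 : G (a * 1 + 2 ^ 1 * b * 0) (2 * c * 1 + d * 0) = G a (2 * c) := by
    congr 1 <;> ring
  have e3 : G (a * 1 + 2 ^ 1 * (b + 2 ^ j * a) * 0) (2 * c * 1 + (d + 4 * 2 ^ j * c) * 0) =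
      G a (2 * c) := by
    congr 1 <;> ring
  have e4 : G (a * 1 + 2 ^ 1 * (b + 2 ^ j * a) * 1) (2 * c * 1 + (d + 4 * 2 ^ j * c) * 1) =
      G (a + 2 * b) (2 * c + d) := by
    rw [← i]
    congr 1 <;> push_cast <;> ring
  rw [e1, e2] at e
  rw [e3, e4, e] at e'
  have : (2 : ℂ) * (G a (2 * c) - G (a + 2 * b) (2 * c + d)) = 0 := by linear_combination -e'
  rcases mul_eq_zero.1 this with h2 | h2
  · exact absurd h2 two_ne_zero
  · exact sub_eq_zero.1 h2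

/-- `G(g 1) = G(g 0)` -/
private lemma h2 (hPlA : StPlA) (hEdg : StEdg) (hB : BalES (j + 2) w ε G)
    (hz : ∀ (x : ZMod (2 ^ (j + 1))) (y : ZMod (2 ^ (j + 1))), edgeF 1 1 1 (-1) 1 G x y = 0)
    {a b c d : ℤ} (h : a * d - 2 ^ (1 + 1) * b * c = 1) :
    G (a + 2 * b) (2 * c + d) = G (2 * b) d := by
  obtain ⟨x, y, hp⟩ := exPl j h
  have e := ed hEdg hB.1 u11 u01 hp
  have e' := ed hEdg hB.1 u11 u01 (plB j hp)
  rw [shy hPlA hEdg hB u11 u01 x y] at e'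
  have i := iterB hEdg hB hz h (2 ^ j)
  have e1 : G (a * 1 + 2 ^ 1 * b * 1) (2 * c * 1 + d * 1) = G (a + 2 * b) (2 * c + d) := by
    congr 1 <;> ring
  have e2 : G (a * 0 + 2 ^ 1 * b * 1) (2 * c * 0 + d * 1) = G (2 * b) d := by
    congr 1 <;> ring
  have e3 : G ((a + 4 * 2 ^ j * b) * 0 + 2 ^ 1 * b * 1) (2 * (c + 2 ^ j * d) * 0 + d * 1) =
      G (2 * b) d := by
    congr 1 <;> ring
  have e4 : G ((a + 4 * 2 ^ j * b) * 1 + 2 ^ 1 * b * 1) (2 * (c + 2 ^ j * d) * 1 + d * 1) =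
      G (a + 2 * b) (2 * c + d) := by
    rw [← i]
    congr 1 <;> push_cast <;> ring
  rw [e1, e2] at e
  rw [e3, e4, e] at e'
  have : (2 : ℂ) * (G (a + 2 * b) (2 * c + d) - G (2 * b) d) = 0 := by linear_combination -e'
  rcases mul_eq_zero.1 this with h2 | h2
  · exact absurd h2 two_ne_zero
  · exact sub_eq_zero.1 h2

/-- all edges whose first vertex is `(odd, even)` or whose vertices are `(odd, odd)`, `(even, odd)` -/
private lemma edge1 (hPlA : StPlA) (hEdg : StEdg) (hB : BalES (j + 2) w ε G)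
    (hz : ∀ (x : ZMod (2 ^ (j + 1))) (y : ZMod (2 ^ (j + 1))), edgeF 1 1 1 (-1) 1 G x y = 0)
    (p q r s : ℤ) (h : p * s - q * r = 1)
    (hc : (Odd p ∧ Even r) ∨ (Odd p ∧ Odd r ∧ Even q)) : G p r = G q s := by
  rcases hc with ⟨op, c, hc⟩ | ⟨op, or, b, hb⟩
  · have hr : r = 2 * c := by omega
    rcases Int.even_or_odd q with ⟨b, hb⟩ | oq
    · have hq : q = 2 * b := by omega
      subst hr; subst hq
      have hd : p * s - 2 ^ (1 + 1) * b * c = 1 := by linear_combination h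
      rw [h1 hPlA hEdg hB hz hd, h2 hPlA hEdg hB hz hd]
    · obtain ⟨b, hb⟩ := oq.sub_odd op
      have hq : q = p + 2 * b := by omega
      subst hr; subst hq
      have hd : p * (s - 2 * c) - 2 ^ (1 + 1) * b * c = 1 := by linear_combination h
      rw [h1 hPlA hEdg hB hz hd]
      congr 1; ring
  · have hq : q = 2 * b := by omega
    have os : Odd s := by
      subst hq
      have : Odd (p * s) := ⟨b * r, by linear_combination h⟩
      exact (Int.odd_mul.1 this).2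
    obtain ⟨c, hc⟩ := or.sub_odd os
    have hr : r = s + 2 * c := by omega
    subst hr; subst hq
    have hd : (p - 2 * b) * s - 2 ^ (1 + 1) * b * c = 1 := by linear_combination h
    have := h2 hPlA hEdg hB hz hd
    rw [← this]
    congr 1 <;> ring

private lemma edge2 (hPlA : StPlA) (hEdg : StEdg) (hB : BalES (j + 2) w ε G)
    (hz : ∀ (x : ZMod (2 ^ (j + 1))) (y : ZMod (2 ^ (j + 1))), edgeF 1 1 1 (-1) 1 G x y = 0)
    (p q r s : ℤ) (h : p * s - q * r = 1) : G p r = G q s := by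
  by_cases hc : (Odd p ∧ Even r) ∨ (Odd p ∧ Odd r ∧ Even q)
  · exact edge1 hPlA hEdg hB hz p q r s h hc
  · -- use the edge in the other direction
    have n : p ≠ 0 ∨ r ≠ 0 := by
      by_contra hcon
      push Not at hcon
      rw [hcon.1, hcon.2] at h
      simp at h
    have h' : q * (-r) - (-p) * s = 1 := by linear_combination h
    have hodd1 : ¬ (Even p ∧ Even r) := by
      rintro ⟨⟨e, he⟩, f, hf⟩
      subst he; subst hf
      have : (2 : ℤ) ∣ 1 := ⟨e * s - q * f, by linear_combination -h⟩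
      norm_num at this
    have hodd2 : ¬ (Even q ∧ Even s) := by
      rintro ⟨⟨e, he⟩, f, hf⟩
      subst he; subst hf
      have : (2 : ℤ) ∣ 1 := ⟨p * f - e * r, by linear_combination -h⟩
      norm_num at this
    have hodd3 : ¬ (Odd p ∧ Odd r ∧ Odd q ∧ Odd s) := by
      rintro ⟨a1, a2, a3, a4⟩
      have : Even (p * s - q * r) := (a1.mul a4).sub_odd (a3.mul a2)
      rw [h] at this
      exact absurd this (by decide)
    have hodd4 : ¬ (Even p ∧ Even q) := by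
      rintro ⟨⟨e, he⟩, f, hf⟩
      subst he; subst hf
      have : (2 : ℤ) ∣ 1 := ⟨e * s - f * r, by linear_combination -h⟩
      norm_num at this
    have := edge1 hPlA hEdg hB hz q (-p) s (-r) h' (by
      simp only [even_neg]
      rcases Int.even_or_odd p with hp | hp <;> rcases Int.even_or_odd r with hr | hr <;>
        rcases Int.even_or_odd q with hq | hq <;> rcases Int.even_or_odd s with hs | hs <;>
        simp_all)
    rw [this, homm hB.1.1 n]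

end

/-- Module E1S. -/
theorem hE1S (hFar : StFar) (hPlA : StPlA) (hEdg : StEdg) : E1S := by
  intro w ε k G _ _ hk hB
  obtain ⟨j, rfl⟩ : ∃ j, k = j + 2 := ⟨k - 2, by omega⟩
  refine ⟨memA hPlA hEdg hB, fun hz => ?_⟩
  exact hFar ℂ _ G hB.1.1 fun a b c d h => edge2 hPlA hEdg hB hz a b c d h

end Pool.Agent.Helper36.TT
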